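import Mathlib
import Pool.Agent.H39.JDP2

set_option autoImplicit false

namespace Pool.Agent.Results.MP_a8f5d0_lc.LogSupply

/-- Unit-demand valuations with values in `[0,1]`. -/
def UnitDemand {m : ℕ} (v : Finset (Fin m) → ℝ) : Prop :=
  ∃ w : Fin m → ℝ, (∀ j, 0 ≤ w j ∧ w j ≤ 1) ∧ ∀ S : Finset (Fin m), v S = S.fold max 0 w

/-- Every item lies in at most `s` bundles. -/
def Feasible {n m : ℕ} (s : ℕ) (ω : Fin n → Finset (Fin m)) : Prop :=
  ∀ j : Fin m, (Finset.univ.filter fun k : Fin n => j ∈ ω k).card ≤ s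

/-- Joint differential privacy on unit-demand profiles. -/
def JointlyPrivate {n m : ℕ} (ε : ℝ)
    (M : (Fin n → Finset (Fin m) → ℝ) → PMF (Fin n → Finset (Fin m))) : Prop :=
  ∀ v : Fin n → Finset (Fin m) → ℝ, (∀ i, UnitDemand (v i)) →
    ∀ (i : Fin n) (w : Finset (Fin m) → ℝ), UnitDemand w →
    ∀ S : Set ({k : Fin n // k ≠ i} → Finset (Fin m)),
      (M v).toOuterMeasure {ω | (fun k : {k : Fin n // k ≠ i} => ω k.1) ∈ S} ≤
        ENNReal.ofReal (Real.exp ε) * (M (Function.update v i w)).toOuterMeasure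
          {ω | (fun k : {k : Fin n // k ≠ i} => ω k.1) ∈ S}

/-- With probability at least `1 - β` the output is feasible and nearly optimal. -/
def Accurate {n m : ℕ} (s : ℕ) (α β : ℝ)
    (M : (Fin n → Finset (Fin m) → ℝ) → PMF (Fin n → Finset (Fin m))) : Prop :=
  ∀ v : Fin n → Finset (Fin m) → ℝ, (∀ i, UnitDemand (v i)) →
    ENNReal.ofReal (1 - β) ≤ (M v).toOuterMeasure {ω | Feasible s ω ∧
      ∀ ω' : Fin n → Finset (Fin m), Feasible s ω' →
        ∑ k, v k (ω' k) - α * (n : ℝ) ≤ ∑ k, v k (ω k)}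

theorem result : ∀ s m : ℕ, 1 ≤ s → 6800 * 3 ^ s ≤ m →
    ¬ ∃ M : (Fin (m * (s * 9999)) → Finset (Fin m) → ℝ) →
        PMF (Fin (m * (s * 9999)) → Finset (Fin m)),
      JointlyPrivate (1 / 9999) M ∧ Accurate s (1 / 159984) (1 / 2) M := by
  rintro s m hs hm ⟨M, h1, h2⟩
  refine Pool.Agent.H39.JDP.core
    (finProdFinEquiv.symm.trans ((Equiv.refl _).prodCongr finProdFinEquiv.symm)) rfl hs hm
    UnitDemand ⟨fun _ => 0, by norm_num, fun S => ?_⟩ (fun j => ⟨Pi.single j 1, fun i => ?_,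
      fun S => ?_⟩) M (fun v hv => ?_) h1
  · exact le_antisymm ((Finset.le_fold_max _).2 (Or.inl le_rfl))
      ((Finset.fold_max_le _).2 ⟨le_rfl, fun _ _ => le_rfl⟩)
  · by_cases h : i = j <;> simp [h]
  · dsimp only
    refine le_antisymm ((Finset.le_fold_max _).2 ?_) ((Finset.fold_max_le _).2 ⟨?_, fun i hi => ?_⟩)
    · split_ifs with h
      · exact Or.inr ⟨j, h, by simp⟩
      · exact Or.inl le_rfl
    · split_ifs <;> norm_num
    · by_cases h : i = j
      · subst h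
        simp [hi]
      · rw [Pi.single_eq_of_ne h]
        split_ifs <;> norm_num
  · have h4 := h2 v hv
    rw [show (1 : ℝ) - 1 / 2 = 1 / 2 by norm_num] at h4
    refine le_trans h4 ((M v).toOuterMeasure.mono ?_)
    rintro ω ⟨h5, h6⟩
    refine ⟨h5, fun ω' h7 => le_trans (le_of_eq ?_) (h6 ω' h7)⟩
    push_cast
    ring

end Pool.Agent.Results.MP_a8f5d0_lc.LogSupply
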